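import Pool.Agent.Y393.SG.Stm

/-!
Project SG, job SG4: the blown up graph is not `(0,k)`-colourable; its number of edges.
-/

set_option autoImplicit false

namespace Pool.Agent.Y395.SG

open SimpleGraph Pool.Agent.H968R3 Pool.Agent.Y393.SG

section counting

variable {A : Type} [Fintype A] [DecidableEq A] {H : SimpleGraph A} {L : ℕ} [NeZero L]
  {φ : A → A → ZMod L}

open Classical in
/-- the set of darts of `H` -/
noncomputable def dts (H : SimpleGraph A) : Finset (A × A) :=
  Finset.univ.filter (fun p => H.Adj p.1 p.2)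

open Classical in
theorem dts_count {D : ℕ} (hD : ∀ a s, {b | H.Adj a b ∧ φ a b = s}.ncard = D)
    (S : Finset (A × ZMod L)) :
    ((dts H).filter (fun p => (p.1, φ p.1 p.2) ∈ S)).card = S.card * D := by
  rw [Finset.card_eq_sum_card_fiberwise (f := fun p => (p.1, φ p.1 p.2)) (t := S)]
  · rw [Finset.sum_const_nat (m := D)]
    rintro ⟨a, s⟩ has
    rw [← hD a s, Set.ncard_eq_toFinset_card']
    symm
    refine Finset.card_bij (fun b _ => (a, b)) ?_ ?_ ?_
    · intro b hb
      rw [Set.mem_toFinset] at hb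
      obtain ⟨h1, h2⟩ := hb
      simp only [Finset.mem_filter, dts, Finset.mem_univ, true_and, h1, h2, has, and_true]
    · intro b _ b' _ h
      exact (Prod.mk.inj h).2
    · rintro ⟨a', b⟩ hb
      simp only [Finset.mem_filter, dts, Finset.mem_univ, true_and, Prod.mk.injEq] at hb
      obtain ⟨⟨h1, -⟩, rfl, h2⟩ := hb
      exact ⟨b, by rw [Set.mem_toFinset]; exact ⟨h1, h2⟩, rfl⟩
  · intro p hp
    exact (Finset.mem_filter.1 hp).2

theorem dts_card {D : ℕ} (hD : ∀ a s, {b | H.Adj a b ∧ φ a b = s}.ncard = D) :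
    (dts H).card = Fintype.card A * L * D := by
  classical
  have h := dts_count hD Finset.univ
  rw [Finset.filter_true_of_mem (fun p _ => Finset.mem_univ _), Finset.card_univ,
    Fintype.card_prod, ZMod.card] at h
  exact h

theorem dts_swap {P : A × A → Prop} [DecidablePred P] :
    ((dts H).filter (fun p => P p.swap)).card = ((dts H).filter P).card := by
  classical
  refine Finset.card_bij (fun p _ => p.swap) ?_ ?_ ?_
  · rintro ⟨a, b⟩ h
    simp only [Finset.mem_filter, dts, Finset.mem_univ, true_and] at h ⊢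
    exact ⟨h.1.symm, h.2⟩
  · intro a _ b _ h
    exact Prod.swap_injective h
  · rintro ⟨a, b⟩ h
    simp only [Finset.mem_filter, dts, Finset.mem_univ, true_and] at h
    refine ⟨(b, a), ?_, rfl⟩
    simp only [Finset.mem_filter, dts, Finset.mem_univ, true_and]
    exact ⟨h.1.symm, h.2⟩

/-- A set of residues modulo an odd number without two consecutive elements. -/
theorem indep_cycle (hL : Odd L) (X : Finset (ZMod L)) (hX : ∀ s ∈ X, s + 1 ∉ X) :
    2 * X.card ≤ L - 1 := by
  have h1 : Disjoint X (X.image (fun s => s + 1)) := by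
    rw [Finset.disjoint_left]
    intro t ht ht'
    obtain ⟨s, hs, rfl⟩ := Finset.mem_image.1 ht'
    exact hX s hs ht
  have h2 : (X.image (fun s => s + 1)).card = X.card :=
    Finset.card_image_of_injective _ (add_left_injective 1)
  have h3 : (X ∪ X.image (fun s => s + 1)).card ≤ L := by
    have h4 := Finset.card_le_univ (X ∪ X.image (fun s => s + 1))
    rwa [ZMod.card] at h4
  rw [Finset.card_union_of_disjoint h1, h2] at h3
  obtain ⟨n, hn⟩ := hL
  omega

end counting

theorem t_COL : S_COL := by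
  classical
  intro A _ _ H L D k φ hL3 hLodd hD hk
  have := Fintype.ofFinite A
  have : NeZero L := ⟨by omega⟩
  rintro ⟨I, hI, hd⟩
  set S : Finset (A × ZMod L) := Finset.univ.filter (fun x => Sum.inl x ∈ I) with hS
  have hM : 1 ≤ Fintype.card A := Fintype.card_pos
  -- `S` is small
  have hS1 : 2 * S.card ≤ Fintype.card A * (L - 1) := by
    rw [Finset.card_eq_sum_card_fiberwise (f := Prod.fst) (t := Finset.univ)
      (fun p _ => Finset.mem_univ _), Finset.mul_sum, ← Finset.card_univ, ← smul_eq_mul]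
    refine Finset.sum_le_card_nsmul _ _ _ ?_
    intro a _
    have h1 : (S.filter (fun p => p.1 = a)).card =
        (Finset.univ.filter (fun s : ZMod L => Sum.inl (a, s) ∈ I)).card := by
      symm
      refine Finset.card_bij (fun s _ => (a, s)) ?_ ?_ ?_
      · intro s hs
        simpa [hS] using hs
      · intro s _ t _ h
        exact (Prod.mk.inj h).2
      · rintro ⟨b, s⟩ h
        simp only [hS, Finset.mem_filter, Finset.mem_univ, true_and] at h
        obtain ⟨h1, rfl⟩ := h
        exact ⟨s, by simpa using h1, rfl⟩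
    rw [h1]
    refine indep_cycle hLodd _ ?_
    intro s hs hs'
    simp only [Finset.mem_filter, Finset.mem_univ, true_and] at hs hs'
    refine hI _ hs _ hs' ⟨rfl, ?_, Or.inl rfl⟩
    intro h
    have h2 : (1 : ZMod L) = 0 := by
      have := h.symm
      rwa [add_eq_left] at this
    have : Fact (1 < L) := ⟨by omega⟩
    exact one_ne_zero h2
  have h1 := dts_count hD S
  have h2 := dts_card hD
  have h3 : ((dts H).filter (fun p => (p.swap.1, φ p.swap.1 p.swap.2) ∈ S)).card = S.card * D := by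
    rw [← h1]
    exact dts_swap (P := fun p => (p.1, φ p.1 p.2) ∈ S)
  -- bad darts
  set Bd : Finset (A × A) := (dts H).filter
    (fun p => (p.1, φ p.1 p.2) ∉ S ∧ Sum.inr p ∉ I) with hBd
  have h4 : Bd.card ≤ Fintype.card A * L * k := by
    rw [Finset.card_eq_sum_card_fiberwise (f := fun p => (p.1, φ p.1 p.2)) (t := Finset.univ)
      (fun p _ => Finset.mem_univ _)]
    have h5 : (Finset.univ : Finset (A × ZMod L)).card = Fintype.card A * L := by
      rw [Finset.card_univ, Fintype.card_prod, ZMod.card]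
    rw [← h5, ← smul_eq_mul]
    refine Finset.sum_le_card_nsmul _ _ _ ?_
    rintro ⟨a, s⟩ -
    by_cases has : Sum.inl (a, s) ∈ I
    · rw [Finset.card_eq_zero.2]
      · exact Nat.zero_le _
      · rw [Finset.filter_eq_empty_iff]
        rintro ⟨a', b⟩ h h'
        simp only [hBd, Finset.mem_filter, hS, Finset.mem_univ, true_and] at h
        apply h.2.1
        rw [h']
        exact has
    · refine le_trans ?_ (hd _ has)
      rw [← Set.ncard_coe_finset]
      refine Set.ncard_le_ncard_of_injOn (fun p => Sum.inr p) ?_ ?_ (Set.toFinite _)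
      · rintro ⟨a', b⟩ h
        simp only [hBd, Finset.mem_filter, hS, Finset.mem_univ, true_and,
          Finset.coe_filter, Set.mem_ofPred_eq, Prod.mk.injEq, dts] at h
        obtain ⟨⟨h6, -, h7⟩, rfl, h8⟩ := h
        exact ⟨⟨rfl, h6, h8.symm⟩, h7⟩
      · intro p _ q _ h
        exact Sum.inr_injective h
  have h5 : ((dts H).filter (fun p => (p.swap.1, φ p.swap.1 p.swap.2) ∉ S ∧
      Sum.inr p.swap ∉ I)).card = Bd.card :=
    dts_swap (P := fun p => (p.1, φ p.1 p.2) ∉ S ∧ Sum.inr p ∉ I)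
  have h6 : dts H ⊆ (((dts H).filter (fun p => (p.1, φ p.1 p.2) ∈ S)) ∪
      ((dts H).filter (fun p => (p.swap.1, φ p.swap.1 p.swap.2) ∈ S))) ∪
      (Bd ∪ ((dts H).filter (fun p => (p.swap.1, φ p.swap.1 p.swap.2) ∉ S ∧
      Sum.inr p.swap ∉ I))) := by
    rintro ⟨a, b⟩ hp
    have hab : H.Adj a b := by
      simp only [dts, Finset.mem_filter, Finset.mem_univ, true_and] at hp
      exact hp
    simp only [Finset.mem_union, hBd, Finset.mem_filter, hp, true_and, Prod.swap_prod_mk]
    by_cases h7 : (a, φ a b) ∈ S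
    · exact Or.inl (Or.inl h7)
    by_cases h8 : (b, φ b a) ∈ S
    · exact Or.inl (Or.inr h8)
    right
    by_cases h9 : (Sum.inr (a, b) : (A × ZMod L) ⊕ (A × A)) ∈ I
    · right
      refine ⟨h8, fun h10 => hI _ h9 _ h10 ⟨hab, rfl, rfl⟩⟩
    · exact Or.inl ⟨h7, h9⟩
  have h7 := Finset.card_le_card h6
  have h8 := Finset.card_union_le ((((dts H).filter (fun p => (p.1, φ p.1 p.2) ∈ S)) ∪
      ((dts H).filter (fun p => (p.swap.1, φ p.swap.1 p.swap.2) ∈ S))))
      (Bd ∪ ((dts H).filter (fun p => (p.swap.1, φ p.swap.1 p.swap.2) ∉ S ∧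
      Sum.inr p.swap ∉ I)))
  have h9 := Finset.card_union_le ((dts H).filter (fun p => (p.1, φ p.1 p.2) ∈ S))
      ((dts H).filter (fun p => (p.swap.1, φ p.swap.1 p.swap.2) ∈ S))
  have h10 := Finset.card_union_le Bd ((dts H).filter (fun p => (p.swap.1, φ p.swap.1 p.swap.2) ∉ S ∧
      Sum.inr p.swap ∉ I))
  rw [h5] at h10
  rw [h1, h3] at h9
  have h11 : Fintype.card A * L * D ≤ 2 * S.card * D + 2 * (Fintype.card A * L * k) := by
    rw [← h2]
    have h12 : 2 * S.card * D = S.card * D + S.card * D := by ring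
    omega
  have h12 : 2 * S.card * D ≤ Fintype.card A * (L - 1) * D := Nat.mul_le_mul_right _ hS1
  obtain ⟨n, rfl⟩ : ∃ n, L = n + 1 := ⟨L - 1, by omega⟩
  rw [Nat.add_sub_cancel] at h12
  have h13 : Fintype.card A * D ≤ 2 * (Fintype.card A * (n + 1) * k) := by
    have h14 : Fintype.card A * (n + 1) * D = Fintype.card A * n * D + Fintype.card A * D := by ring
    omega
  have h14 : Fintype.card A * (2 * (n + 1) * k) < Fintype.card A * D :=
    Nat.mul_lt_mul_of_pos_left hk hM
  have h15 : 2 * (Fintype.card A * (n + 1) * k) = Fintype.card A * (2 * (n + 1) * k) := by ring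
  omega

theorem t_EDG : S_EDG := by
  classical
  intro A _ H L D φ hL3 hD
  have := Fintype.ofFinite A
  have : NeZero L := ⟨by omega⟩
  have h2 := dts_card hD
  have h3 : (blow H L φ).edgeSet ⊆
      (((fun x : A × ZMod L => s(Sum.inl x, Sum.inl (x.1, x.2 + 1))) '' Set.univ) ∪
      ((fun p : A × A => s(Sum.inl (p.1, φ p.1 p.2), Sum.inr p)) '' (dts H : Set (A × A)))) ∪
      ((fun p : A × A => s(Sum.inr p, Sum.inr p.swap)) '' (dts H : Set (A × A))) := by
    intro e
    refine Sym2.ind (fun u v h => ?_) e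
    rw [mem_edgeSet] at h
    have hd : ∀ a b, H.Adj a b → (a, b) ∈ (dts H : Set (A × A)) := by
      intro a b h
      simpa [dts] using h
    rcases u with ⟨i, s⟩ | ⟨a, b⟩ <;> rcases v with ⟨j, t⟩ | ⟨c, d⟩
    · obtain ⟨h4, -, h5 | h5⟩ := h
      · subst h4 h5
        exact Or.inl (Or.inl ⟨(i, s), trivial, rfl⟩)
      · subst h4 h5
        exact Or.inl (Or.inl ⟨(i, t), trivial, Sym2.eq_swap⟩)
    · obtain ⟨h4, h5, h6⟩ := h
      subst h4 h6
      exact Or.inl (Or.inr ⟨(c, d), hd _ _ h5, rfl⟩)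
    · obtain ⟨h4, h5, h6⟩ := h
      subst h4 h6
      exact Or.inl (Or.inr ⟨(a, b), hd _ _ h5, Sym2.eq_swap⟩)
    · obtain ⟨h4, h5, h6⟩ := h
      subst h5 h6
      exact Or.inr ⟨_, hd _ _ h4, rfl⟩
  have h4 := (Set.ncard_le_ncard h3 (Set.toFinite _)).trans (Set.ncard_union_le _ _)
  have h5 := Set.ncard_union_le ((fun x : A × ZMod L => s(Sum.inl x, Sum.inl (x.1, x.2 + 1))) ''
      Set.univ) ((fun p : A × A => s(Sum.inl (p.1, φ p.1 p.2), Sum.inr p)) '' (dts H : Set (A × A)))
  have h6 := Set.ncard_image_le (f := fun x : A × ZMod L => s((Sum.inl x : (A × ZMod L) ⊕ (A × A)),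
    Sum.inl (x.1, x.2 + 1))) (Set.toFinite Set.univ)
  have h7 := Set.ncard_image_le (f := fun p : A × A => s(Sum.inl (p.1, φ p.1 p.2), Sum.inr p))
    (Set.toFinite (dts H : Set (A × A)))
  have h8 := Set.ncard_image_le (f := fun p : A × A => s((Sum.inr p : (A × ZMod L) ⊕ (A × A)),
    Sum.inr p.swap)) (Set.toFinite (dts H : Set (A × A)))
  rw [Set.ncard_coe_finset, h2] at h7 h8
  rw [Set.ncard_univ, Nat.card_prod, Nat.card_zmod] at h6
  have h9 : Nat.card A * L * (2 * D + 1) = Nat.card A * L + Nat.card A * L * D +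
    Nat.card A * L * D := by ring
  rw [h9]
  rw [← Nat.card_eq_fintype_card] at h7 h8
  omega

end Pool.Agent.Y395.SG
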