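import Pool.Agent.Y393.SG.Stm

/-!
Project SG, job SG2: every graph with `e` edges embeds on a surface of Euler genus `g ≥ 2 e`.
-/

set_option autoImplicit false

namespace Pool.Agent.Y395.SG

open SimpleGraph Pool.Agent.H968R3 Pool.Agent.Y393.SG

/-- `T` triangulates a surface of Euler genus `g`. -/
def Good (T : Finset (Finset ℕ)) (g : ℕ) : Prop :=
  Surf T ∧ T.card + 4 = 2 * (vs T).card + 2 * g

theorem mem_vs {T : Finset (Finset ℕ)} {x : ℕ} : x ∈ vs T ↔ ∃ t ∈ T, x ∈ t := by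
  simp [vs]

theorem adj_left {T : Finset (Finset ℕ)} {x y : ℕ} (h : (skel T).Adj x y) : x ∈ vs T := by
  obtain ⟨-, t, ht, h1, -⟩ := h
  exact mem_vs.2 ⟨t, ht, h1⟩

theorem adj_right {T : Finset (Finset ℕ)} {x y : ℕ} (h : (skel T).Adj x y) : y ∈ vs T :=
  adj_left h.symm

section transport

variable {T : Finset (Finset ℕ)} {n : ℕ} {e : Fin n ↪ ℕ}

open Classical in
/-- the system of triangles seen on `Fin n` -/
noncomputable def pb (T : Finset (Finset ℕ)) {n : ℕ} (e : Fin n ↪ ℕ) : Finset (Finset (Fin n)) :=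
  Finset.univ.filter (fun s => s.map e ∈ T)

theorem mem_pb {s : Finset (Fin n)} : s ∈ pb T e ↔ s.map e ∈ T := by
  simp [pb]

theorem exists_pb (he : ∀ x ∈ vs T, ∃ i, e i = x) {t : Finset ℕ} (ht : t ∈ T) :
    ∃ s ∈ pb T e, s.map e = t := by
  classical
  have h : (Finset.univ.filter (fun i => e i ∈ t)).map e = t := by
    ext x
    simp only [Finset.mem_map, Finset.mem_filter, Finset.mem_univ, true_and]
    constructor
    · rintro ⟨i, hi, rfl⟩
      exact hi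
    · intro hx
      obtain ⟨i, rfl⟩ := he x (mem_vs.2 ⟨t, ht, hx⟩)
      exact ⟨i, hx, rfl⟩
  exact ⟨_, mem_pb.2 (by rw [h]; exact ht), h⟩

theorem pb_filter (he : ∀ x ∈ vs T, ∃ i, e i = x) (P : Finset ℕ → Prop) [DecidablePred P]
    (P' : Finset (Fin n) → Prop) [DecidablePred P'] (hP : ∀ s, P' s ↔ P (s.map e)) :
    ((pb T e).filter P').card = (T.filter P).card := by
  refine Finset.card_bij (fun s _ => s.map e) ?_ ?_ ?_
  · intro s hs
    rw [Finset.mem_filter] at hs ⊢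
    exact ⟨mem_pb.1 hs.1, (hP s).1 hs.2⟩
  · intro s _ s' _ h
    exact Finset.map_injective e h
  · intro t ht
    rw [Finset.mem_filter] at ht
    obtain ⟨s, hs, rfl⟩ := exists_pb he ht.1
    exact ⟨s, Finset.mem_filter.2 ⟨hs, (hP s).2 ht.2⟩, rfl⟩

theorem pb_card (he : ∀ x ∈ vs T, ∃ i, e i = x) : (pb T e).card = T.card := by
  have h := pb_filter he (fun _ => True) (fun _ => True) (fun _ => Iff.rfl)
  simpa using h

theorem skel_pb (he : ∀ x ∈ vs T, ∃ i, e i = x) {x y : Fin n} :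
    (skel (pb T e)).Adj x y ↔ (skel T).Adj (e x) (e y) := by
  constructor
  · rintro ⟨h, s, hs, h1, h2⟩
    exact ⟨fun h' => h (e.injective h'), s.map e, mem_pb.1 hs, Finset.mem_map_of_mem e h1,
      Finset.mem_map_of_mem e h2⟩
  · rintro ⟨h, t, ht, h1, h2⟩
    obtain ⟨s, hs, rfl⟩ := exists_pb he ht
    exact ⟨fun h' => h (congrArg e h'), s, hs, (Finset.mem_map' e).1 h1, (Finset.mem_map' e).1 h2⟩

theorem link_pb (he : ∀ x ∈ vs T, ∃ i, e i = x) {w x y : Fin n}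
    (h : (link T (e w)).Adj (e x) (e y)) : (link (pb T e) w).Adj x y := by
  obtain ⟨h, h', h'', t, ht, h0, h1, h2⟩ := h
  obtain ⟨s, hs, rfl⟩ := exists_pb he ht
  exact ⟨fun h' => h (congrArg e h'), fun h0 => h' (congrArg e h0), fun h0 => h'' (congrArg e h0),
    s, hs, (Finset.mem_map' e).1 h0, (Finset.mem_map' e).1 h1, (Finset.mem_map' e).1 h2⟩

theorem reach_pb {R : SimpleGraph ℕ} {R' : SimpleGraph (Fin n)}
    (h1 : ∀ u v, R.Adj u v → ∃ i, e i = v) (h2 : ∀ x y, R.Adj (e x) (e y) → R'.Adj x y)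
    {x y : Fin n} (h : R.Reachable (e x) (e y)) : R'.Reachable x y := by
  obtain ⟨p⟩ := h
  have key : ∀ (u v : ℕ) (_ : R.Walk u v) (x y : Fin n), e x = u → e y = v → R'.Reachable x y := by
    intro u v p
    induction p with
    | nil =>
      intro x y hx hy
      rw [e.injective (hx.trans hy.symm)]
    | cons hadj q ih =>
      intro x y hx hy
      obtain ⟨z, hz⟩ := h1 _ _ hadj
      have h3 := ih z y hz hy
      rw [← hx, ← hz] at hadj
      exact (h2 _ _ hadj).reachable.trans h3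
  exact key _ _ p x y rfl rfl

theorem closed_pb (hT : Surf T) (he : ∀ x ∈ vs T, ∃ i, e i = x) (he' : ∀ i, e i ∈ vs T) :
    IsClosedSurface (pb T e) := by
  classical
  refine ⟨?_, ?_, ?_, ?_, ?_⟩
  · obtain ⟨t, ht⟩ := hT.nonempty
    obtain ⟨s, hs, -⟩ := exists_pb he ht
    exact ⟨s, hs⟩
  · intro s hs
    rw [← Finset.card_map e]
    exact hT.card_eq _ (mem_pb.1 hs)
  · intro x y h
    have h1 := hT.edge _ _ ((skel_pb he).1 h)
    have h2 : {t | t ∈ pb T e ∧ x ∈ t ∧ y ∈ t} =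
        (((pb T e).filter (fun t => x ∈ t ∧ y ∈ t) : Finset (Finset (Fin n))) : Set _) := by
      ext t; simp
    rw [h2, Set.ncard_coe_finset, ← h1]
    exact pb_filter he _ _ (fun s => by rw [Finset.mem_map' e, Finset.mem_map' e])
  · intro w x y h1 h2
    have h3 := hT.link _ _ _ ((skel_pb he).1 h1) ((skel_pb he).1 h2)
    refine reach_pb (e := e) ?_ (fun x y h => link_pb he h) h3
    rintro u v ⟨-, -, -, t, ht, -, -, h⟩
    exact he v (mem_vs.2 ⟨t, ht, h⟩)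
  · have hne : Nonempty (Fin n) := by
      obtain ⟨t, ht⟩ := hT.nonempty
      have h3 : 0 < t.card := by rw [hT.card_eq t ht]; omega
      obtain ⟨x, hx⟩ := Finset.card_pos.1 h3
      obtain ⟨i, -⟩ := he x (mem_vs.2 ⟨t, ht, hx⟩)
      exact ⟨i⟩
    refine ⟨?_⟩
    intro x y
    refine reach_pb (e := e) ?_ (fun x y h => (skel_pb he).2 h) (hT.conn _ (he' x) _ (he' y))
    intro u v h
    exact he v (adj_right h)

end transport

/-- `2 E = 3 F` -/
theorem two_mul_edges {n : ℕ} {T : Finset (Finset (Fin n))} (hT : IsClosedSurface T) :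
    2 * (skel T).edgeSet.ncard = 3 * T.card := by
  classical
  have h1 : 2 * (skel T).edgeSet.ncard =
      (Finset.univ.filter (fun p : Fin n × Fin n => (skel T).Adj p.1 p.2)).card := by
    have h := two_mul_card_edgeFinset (G := skel T)
    rw [← coe_edgeFinset, Set.ncard_coe_finset, h]
  have h2 := Finset.sum_card_bipartiteAbove_eq_sum_card_bipartiteBelow
    (s := Finset.univ.filter (fun p : Fin n × Fin n => (skel T).Adj p.1 p.2)) (t := T)
    (fun p t => p.1 ∈ t ∧ p.2 ∈ t)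
  rw [Finset.sum_const_nat (m := 2), Finset.sum_const_nat (m := 6)] at h2
  · omega
  · intro t ht
    have h3 : Finset.bipartiteBelow (fun (p : Fin n × Fin n) (t : Finset (Fin n)) =>
        p.1 ∈ t ∧ p.2 ∈ t) (Finset.univ.filter (fun p => (skel T).Adj p.1 p.2)) t = t.offDiag := by
      ext ⟨x, y⟩
      simp only [Finset.bipartiteBelow, Finset.mem_filter, Finset.mem_univ, true_and,
        Finset.mem_offDiag]
      constructor
      · rintro ⟨h4, h5, h6⟩
        exact ⟨h5, h6, h4.ne⟩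
      · rintro ⟨h4, h5, h6⟩
        exact ⟨⟨h6, t, ht, h4, h5⟩, h4, h5⟩
    rw [h3, Finset.offDiag_card, hT.card_eq t ht]
  · rintro ⟨x, y⟩ h
    rw [Finset.mem_filter] at h
    have h4 := hT.edge x y h.2
    have h5 : {t | t ∈ T ∧ x ∈ t ∧ y ∈ t} =
        ((T.filter (fun t => x ∈ t ∧ y ∈ t) : Finset (Finset (Fin n))) : Set _) := by
      ext t; simp
    rw [h5, Set.ncard_coe_finset] at h4
    exact h4

theorem embeds_of_good {V : Type} {G : SimpleGraph V} {T : Finset (Finset ℕ)} {g : ℕ}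
    (hT : Good T g) (f : V → ℕ) (hf : Function.Injective f) (hv : ∀ v, f v ∈ vs T)
    (hadj : ∀ u v, G.Adj u v → (skel T).Adj (f u) (f v)) : EmbedsEulerGenus G g := by
  classical
  let e0 : Fin (vs T).card ≃ vs T := (vs T).equivFin.symm
  let e : Fin (vs T).card ↪ ℕ := e0.toEmbedding.trans (Function.Embedding.subtype _)
  have he : ∀ x ∈ vs T, ∃ i, e i = x := by
    intro x hx
    exact ⟨e0.symm ⟨x, hx⟩, by simp [e]⟩
  have he' : ∀ i, e i ∈ vs T := fun i => (e0 i).2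
  have hcl := closed_pb hT.1 he he'
  choose i hi using fun v => he (f v) (hv v)
  refine ⟨(vs T).card, pb T e, hcl, ?_, i, ?_, ?_⟩
  · have h1 := two_mul_edges hcl
    have h2 := pb_card he
    have h3 := hT.2
    rw [h2] at h1
    unfold eulerChar
    rw [Nat.card_eq_fintype_card, Fintype.card_fin, h2]
    omega
  · intro u v h
    apply hf
    rw [← hi u, ← hi v, h]
  · intro u v h
    rw [skel_pb he, hi, hi]
    exact hadj u v h

/-! ### The two basic surfaces -/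

theorem surf_of_check (T : Finset (Finset ℕ)) (n : ℕ) (h0 : T.Nonempty) (h1 : ∀ t ∈ T, t.card = 3)
    (hv : ∀ t ∈ T, ∀ x ∈ t, x ∈ Finset.range n)
    (h2 : ∀ x ∈ Finset.range n, ∀ y ∈ Finset.range n, x ≠ y → cnt T x y = 2)
    (h3 : ∀ w ∈ Finset.range n, ∀ x ∈ Finset.range n, ∀ y ∈ Finset.range n, x ≠ w → y ≠ w →
      x ≠ y → (∃ t ∈ T, w ∈ t ∧ x ∈ t ∧ y ∈ t) ∨ ∃ z ∈ Finset.range n, z ≠ w ∧ z ≠ x ∧ z ≠ y ∧
      (∃ t ∈ T, w ∈ t ∧ x ∈ t ∧ z ∈ t) ∧ (∃ t ∈ T, w ∈ t ∧ z ∈ t ∧ y ∈ t)) : Surf T := by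
  have hvs : ∀ x ∈ vs T, x ∈ Finset.range n := by
    intro x hx
    obtain ⟨t, ht, hxt⟩ := mem_vs.1 hx
    exact hv t ht x hxt
  refine ⟨h0, h1, ?_, ?_, ?_⟩
  · intro x y h
    exact h2 x (hvs x (adj_left h)) y (hvs y (adj_right h)) h.1
  · intro w x y hx hy
    by_cases hxy : x = y
    · rw [hxy]
    · rcases h3 w (hvs w (adj_left hx)) x (hvs x (adj_right hx)) y (hvs y (adj_right hy))
        hx.1.symm hy.1.symm hxy with h | ⟨z, -, hzw, hzx, hzy, h4, h5⟩
      · exact Adj.reachable ⟨hxy, hx.1.symm, hy.1.symm, h⟩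
      · have h6 : (link T w).Adj x z := ⟨hzx.symm, hx.1.symm, hzw, h4⟩
        have h7 : (link T w).Adj z y := ⟨hzy, hzw, hy.1.symm, h5⟩
        exact h6.reachable.trans h7.reachable
  · intro x hx y hy
    by_cases hxy : x = y
    · rw [hxy]
    · have h4 := h2 x (hvs x hx) y (hvs y hy) hxy
      unfold cnt at h4
      have h5 : 0 < (T.filter (fun t => x ∈ t ∧ y ∈ t)).card := by omega
      obtain ⟨t, ht⟩ := Finset.card_pos.1 h5
      rw [Finset.mem_filter] at ht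
      exact Adj.reachable ⟨hxy, t, ht.1, ht.2⟩

/-- the boundary of a tetrahedron -/
def tetra : Finset (Finset ℕ) := {{0, 1, 2}, {0, 1, 3}, {0, 2, 3}, {1, 2, 3}}

/-- the projective plane with six vertices -/
def proj : Finset (Finset ℕ) := {{0, 1, 2}, {0, 2, 3}, {0, 3, 4}, {0, 4, 5}, {0, 5, 1}, {1, 2, 4},
  {2, 3, 5}, {3, 4, 1}, {4, 5, 2}, {5, 1, 3}}

theorem good_tetra : Good tetra 0 := by
  refine ⟨surf_of_check tetra 4 (by decide +kernel) (by decide +kernel) (by decide +kernel)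
    (by decide +kernel) (by decide +kernel), ?_⟩
  decide +kernel

theorem good_proj : Good proj 1 := by
  refine ⟨surf_of_check proj 6 (by decide +kernel) (by decide +kernel) (by decide +kernel)
    (by decide +kernel) (by decide +kernel), ?_⟩
  decide +kernel

/-! ### Subdividing and tubes -/

theorem exists_fresh (T : Finset (Finset ℕ)) : ∃ c, c ∉ vs T := Infinite.exists_notMem_finset _

/-- `T'` extends `T` -/
def Ext (T T' : Finset (Finset ℕ)) : Prop :=
  vs T ⊆ vs T' ∧ ∀ x y, (skel T).Adj x y → (skel T').Adj x y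

theorem Ext.trans {T T' T'' : Finset (Finset ℕ)} (h : Ext T T') (h' : Ext T' T'') : Ext T T'' :=
  ⟨h.1.trans h'.1, fun x y hxy => h'.2 _ _ (h.2 _ _ hxy)⟩

theorem exists_sub (hS : S_SUB) {T : Finset (Finset ℕ)} {g : ℕ} (hT : Good T g) {t : Finset ℕ}
    (ht : t ∈ T) : ∃ T' c, Good T' g ∧ Ext T T' ∧ c ∉ vs T ∧ vs T' = insert c (vs T) ∧
      (∀ x y, x ≠ c → y ≠ c → (skel T').Adj x y → (skel T).Adj x y) ∧
      (∀ x, (skel T').Adj c x ↔ x ∈ t) ∧
      (∀ s ∈ T, s ≠ t → s ∈ T') ∧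
      (∀ x ∈ t, ∀ y ∈ t, x ≠ y → ({c, x, y} : Finset ℕ) ∈ T') := by
  obtain ⟨c, hc⟩ := exists_fresh T
  obtain ⟨T', h1, h2, h3, h4, h5, h6, h7, h8⟩ := hS T hT.1 t ht c hc
  refine ⟨T', c, ⟨h1, ?_⟩, ⟨?_, h4⟩, hc, h2, h5, h6, h7, h8⟩
  · rw [h2, Finset.card_insert_of_notMem hc, h3]
    have := hT.2
    omega
  · rw [h2]
    exact Finset.subset_insert _ _

theorem exists_many (hS : S_SUB) {T : Finset (Finset ℕ)} {g : ℕ} (hT : Good T g) (n : ℕ) :
    ∃ T', Good T' g ∧ n ≤ (vs T').card := by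
  induction n with
  | zero => exact ⟨T, hT, Nat.zero_le _⟩
  | succ n ih =>
    obtain ⟨T1, h1, h2⟩ := ih
    obtain ⟨t, ht⟩ := h1.1.nonempty
    obtain ⟨T', c, h3, -, h4, h5, -⟩ := exists_sub hS h1 ht
    refine ⟨T', h3, ?_⟩
    rw [h5, Finset.card_insert_of_notMem h4]
    omega

/-- A small triangle at the point `x`. -/
theorem exists_iso (hS : S_SUB) {T : Finset (Finset ℕ)} {g : ℕ} (hT : Good T g) {x : ℕ}
    {t : Finset ℕ} (ht : t ∈ T) (hx : x ∈ t) : ∃ T' c d, Good T' g ∧ Ext T T' ∧ c ∉ vs T ∧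
      d ∉ vs T ∧ c ≠ d ∧ ({x, c, d} : Finset ℕ) ∈ T' ∧
      (∀ a b, a ≠ c → a ≠ d → b ≠ c → b ≠ d → (skel T').Adj a b → (skel T).Adj a b) ∧
      (∀ z, (skel T').Adj c z → z = d ∨ z ∈ t) ∧ (∀ z, (skel T').Adj d z → z = c ∨ z ∈ t) ∧
      (∀ s ∈ T, s ≠ t → s ∈ T') := by
  obtain ⟨T1, c, h1, h2, h3, h4, h5, h6, h7, h8⟩ := exists_sub hS hT ht
  obtain ⟨a, ha, hax⟩ : ∃ a ∈ t, a ≠ x := by
    have : 1 < t.card := by rw [hT.1.card_eq t ht]; omega
    exact Finset.exists_mem_ne this x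
  have hcx : c ≠ x := fun h => h3 (mem_vs.2 ⟨t, ht, h ▸ hx⟩)
  have ht1 : ({c, x, a} : Finset ℕ) ∈ T1 := h8 x hx a ha hax.symm
  obtain ⟨T2, d, g1, g2, g3, g4, g5, g6, g7, g8⟩ := exists_sub hS h1 ht1
  have hd : d ∉ vs T := fun h => g3 (h2.1 h)
  have hcd : c ≠ d := by
    rintro rfl
    exact g3 (by rw [h4]; exact Finset.mem_insert_self _ _)
  refine ⟨T2, c, d, g1, h2.trans g2, h3, hd, hcd, ?_, ?_, ?_, ?_, ?_⟩
  · have h9 := g8 x (by simp) c (by simp) hcx.symm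
    have h10 : ({x, c, d} : Finset ℕ) = {d, x, c} := by
      ext z
      simp only [Finset.mem_insert, Finset.mem_singleton]
      tauto
    rw [h10]
    exact h9
  · intro p q hp1 hp2 hq1 hq2 h
    exact h5 p q hp1 hq1 (g5 p q hp2 hq2 h)
  · intro z hz
    by_cases hzd : z = d
    · exact Or.inl hzd
    · exact Or.inr ((h6 z).1 (g5 c z hcd hzd hz))
  · intro z hz
    have h9 := (g6 z).1 hz
    simp only [Finset.mem_insert, Finset.mem_singleton] at h9
    rcases h9 with h9 | h9 | h9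
    · exact Or.inl h9
    · exact Or.inr (h9 ▸ hx)
    · exact Or.inr (h9 ▸ ha)
  · intro s hs hst
    refine g7 s (h7 s hs hst) ?_
    rintro rfl
    exact h3 (mem_vs.2 ⟨_, hs, by simp⟩)

theorem exists_tube (hS : S_SUB) (hH : S_HAN) {T : Finset (Finset ℕ)} {g : ℕ} (hT : Good T g)
    {x y : ℕ} (hx : x ∈ vs T) (hy : y ∈ vs T) (hxy : x ≠ y) (hna : ¬ (skel T).Adj x y) :
    ∃ T', Good T' (g + 2) ∧ Ext T T' ∧ (skel T').Adj x y := by
  obtain ⟨t, ht, hxt⟩ := mem_vs.1 hx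
  obtain ⟨T1, c, d, h1, h2, h3, h4, h5, h6, h7, h8, h9, h10⟩ := exists_iso hS hT ht hxt
  have hyt : y ∉ t := fun h => hna ⟨hxy, t, ht, hxt, h⟩
  have hyc : y ≠ c := fun h => h3 (h ▸ hy)
  have hyd : y ≠ d := fun h => h4 (h ▸ hy)
  have hxc : x ≠ c := fun h => h3 (h ▸ hx)
  have hxd : x ≠ d := fun h => h4 (h ▸ hx)
  -- `y` is not adjacent to `x, c, d` in `T1`
  have hn1 : ¬ (skel T1).Adj x y := fun h => hna (h7 x y hxc hxd hyc hyd h)
  have hn2 : ¬ (skel T1).Adj c y := fun h => (h8 y h).elim hyd hyt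
  have hn3 : ¬ (skel T1).Adj d y := fun h => (h9 y h).elim hyc hyt
  obtain ⟨s, hs, hys⟩ := mem_vs.1 (h2.1 hy)
  have hxs : x ∉ s := fun h => hn1 ⟨hxy, s, hs, h, hys⟩
  have hcs : c ∉ s := fun h => hn2 ⟨hyc.symm, s, hs, h, hys⟩
  have hds : d ∉ s := fun h => hn3 ⟨hyd.symm, s, hs, h, hys⟩
  have hxcd : ∀ z ∈ ({x, c, d} : Finset ℕ), z ∈ vs T1 := fun z hz => mem_vs.2 ⟨_, h6, hz⟩
  obtain ⟨T2, e, f, g1, g2, g3, g4, g5, g6, g7, g8, g9, g10⟩ := exists_iso hS h1 hs hys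
  have hmem : ({x, c, d} : Finset ℕ) ∈ T2 := by
    refine g10 _ h6 ?_
    rintro rfl
    exact hxs (by simp)
  have hout : ∀ z ∈ ({x, c, d} : Finset ℕ), z ∉ s ∧ ¬ (skel T1).Adj z y ∧ z ≠ y := by
    intro z hz
    simp only [Finset.mem_insert, Finset.mem_singleton] at hz
    rcases hz with rfl | rfl | rfl
    · exact ⟨hxs, hn1, hxy⟩
    · exact ⟨hcs, hn2, hyc.symm⟩
    · exact ⟨hds, hn3, hyd.symm⟩
  have hye : y ≠ e := fun h => g3 (h ▸ h2.1 hy)
  have hyf : y ≠ f := fun h => g4 (h ▸ h2.1 hy)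
  obtain ⟨T', k1, k2, k3, k4, k5⟩ := hH T2 g1.1 _ hmem _ g6 (by
    intro z hz w hw
    obtain ⟨o1, o2, o3⟩ := hout z hz
    have hze : z ≠ e := fun h => g3 (h ▸ hxcd z hz)
    have hzf : z ≠ f := fun h => g4 (h ▸ hxcd z hz)
    simp only [Finset.mem_insert, Finset.mem_singleton] at hw
    rcases hw with rfl | rfl | rfl
    · exact ⟨o3, fun h => o2 (g7 z w hze hzf hye hyf h)⟩
    · exact ⟨hze, fun h => (g8 z h.symm).elim hzf o1⟩
    · exact ⟨hzf, fun h => (g9 z h.symm).elim hze o1⟩) x (by simp) y (by simp)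
  refine ⟨T', ⟨k1, ?_⟩, ?_, k5⟩
  · rw [k2, k3]
    have := g1.2
    omega
  · exact (h2.trans g2).trans ⟨k2.symm ▸ Finset.Subset.refl _, k4⟩

theorem exists_fill (hS : S_SUB) (hH : S_HAN) {T : Finset (Finset ℕ)} {g : ℕ} (hT : Good T g) :
    ∃ T', Good T' (g + 2) ∧ Ext T T' := by
  classical
  obtain ⟨t, ht⟩ := hT.1.nonempty
  have h3 : 1 < t.card := by rw [hT.1.card_eq t ht]; omega
  obtain ⟨x, hx, y, hy, hxy⟩ := Finset.one_lt_card.1 h3
  have h4 := hT.1.edge x y ⟨hxy, t, ht, hx, hy⟩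
  unfold cnt at h4
  obtain ⟨s, hs, hst⟩ := Finset.exists_mem_ne (s := T.filter (fun t => x ∈ t ∧ y ∈ t)) (by omega) t
  have hsT : s ∈ T := (Finset.mem_filter.1 hs).1
  obtain ⟨T1, c, h1, h2, h3, h4, h5, h6, h7, -⟩ := exists_sub hS hT ht
  have hs1 : s ∈ T1 := h7 s hsT hst
  obtain ⟨T2, d, g1, g2, g3, g4, g5, g6, g7, -⟩ := exists_sub hS h1 hs1
  have hc1 : c ∈ vs T1 := by rw [h4]; exact Finset.mem_insert_self _ _
  obtain ⟨T', k1, k2, -⟩ := exists_tube hS hH g1 (x := d) (y := c)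
    (by rw [g4]; exact Finset.mem_insert_self _ _) (g2.1 hc1) (fun h => g3 (h ▸ hc1))
    (fun h => h3 (mem_vs.2 ⟨s, hsT, (g6 c).1 h⟩))
  exact ⟨T', k1, (h2.trans g2).trans k2⟩

theorem exists_good (hS : S_SUB) (hH : S_HAN) (g : ℕ) : ∃ T, Good T g := by
  induction g using Nat.twoStepInduction with
  | zero => exact ⟨_, good_tetra⟩
  | one => exact ⟨_, good_proj⟩
  | more n h _ =>
    obtain ⟨T, hT⟩ := h
    obtain ⟨T', h1, -⟩ := exists_fill hS hH hT
    exact ⟨T', h1⟩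

theorem exists_emb (hS : S_SUB) (hH : S_HAN) {V : Type} [Finite V] (n : ℕ) :
    ∀ (G : SimpleGraph V) (g : ℕ), G.edgeSet.ncard = n → 2 * n ≤ g →
      ∃ (T : Finset (Finset ℕ)) (f : V → ℕ), Good T g ∧ Function.Injective f ∧
        (∀ v, f v ∈ vs T) ∧ ∀ u v, G.Adj u v → (skel T).Adj (f u) (f v) := by
  classical
  have := Fintype.ofFinite V
  induction n with
  | zero =>
    intro G g hG _
    obtain ⟨T0, h0⟩ := exists_good hS hH g
    obtain ⟨T, h1, h2⟩ := exists_many hS h0 (Fintype.card V)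
    have h3 : Fintype.card V ≤ Fintype.card (vs T) := by rwa [Fintype.card_coe]
    obtain ⟨f⟩ := Function.Embedding.nonempty_of_card_le h3
    refine ⟨T, fun v => (f v).1, h1, fun u v h => f.injective (Subtype.ext h), fun v => (f v).2, ?_⟩
    intro u v h
    exfalso
    have h4 : G.edgeSet = ∅ := by
      rwa [Set.ncard_eq_zero (Set.toFinite _)] at hG
    have h5 : s(u, v) ∈ G.edgeSet := h
    rw [h4] at h5
    exact h5
  | succ n ih =>
    intro G g hG hg
    have h1 : G.edgeSet.Nonempty := by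
      rw [Set.nonempty_iff_ne_empty]
      intro h
      rw [h, Set.ncard_empty] at hG
      omega
    obtain ⟨e, he⟩ := h1
    revert he
    refine Sym2.ind (fun u v he => ?_) e
    obtain ⟨g', rfl⟩ : ∃ g', g = g' + 2 := ⟨g - 2, by omega⟩
    have h2 : (G.deleteEdges {s(u, v)}).edgeSet.ncard = n := by
      rw [edgeSet_deleteEdges, Set.ncard_diff_singleton_of_mem he, hG]
      rfl
    obtain ⟨T, f, hT, hf, hv, hadj⟩ := ih (G.deleteEdges {s(u, v)}) g' h2 (by omega)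
    have h3 : ∀ a b, G.Adj a b → (skel T).Adj (f a) (f b) ∨ s(a, b) = s(u, v) := by
      intro a b hab
      by_cases h : s(a, b) = s(u, v)
      · exact Or.inr h
      · left
        apply hadj
        rw [deleteEdges_adj]
        exact ⟨hab, h⟩
    have huv : G.Adj u v := he
    by_cases h4 : (skel T).Adj (f u) (f v)
    · obtain ⟨T', k1, k2⟩ := exists_fill hS hH hT
      refine ⟨T', f, k1, hf, fun v => k2.1 (hv v), ?_⟩
      intro a b hab
      apply k2.2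
      rcases h3 a b hab with h | h
      · exact h
      · rcases Sym2.eq_iff.1 h with ⟨rfl, rfl⟩ | ⟨rfl, rfl⟩
        · exact h4
        · exact h4.symm
    · obtain ⟨T', k1, k2, k3⟩ := exists_tube hS hH hT (hv u) (hv v) (fun h => huv.ne (hf h)) h4
      refine ⟨T', f, k1, hf, fun v => k2.1 (hv v), ?_⟩
      intro a b hab
      rcases h3 a b hab with h | h
      · exact k2.2 _ _ h
      · rcases Sym2.eq_iff.1 h with ⟨rfl, rfl⟩ | ⟨rfl, rfl⟩
        · exact k3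
        · exact k3.symm

theorem t_EMB (h1 : S_SUB) (h2 : S_HAN) : S_EMB := by
  intro V _ G g hg
  obtain ⟨T, f, hT, hf, hv, hadj⟩ := exists_emb h1 h2 _ G g rfl hg
  exact embeds_of_good hT f hf hv hadj

end Pool.Agent.Y395.SG
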