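import Pool.Agent.Y393.SG.Stm
import Pool.Agent.H968R3.GraphLem
import Pool.Agent.H968R3.Order

/-!
Project SG, job SG5: the quotient of a critical graph by stars.
-/

set_option autoImplicit false

namespace Pool.Agent.Y395.SG

open SimpleGraph Pool.Agent.H968R3 Pool.Agent.Y393.SG

variable {V : Type}

theorem no_triangle {G : SimpleGraph V} {L : ℕ} (hL : 3 ≤ L) (hg : (L : ℕ∞) < G.egirth)
    {a b c : V} (hab : G.Adj a b) (hbc : G.Adj b c) (hac : G.Adj a c) : False := by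
  have h1 : (Walk.cons hac Walk.nil : G.Walk a c).IsPath := by
    simp [hac.ne]
  have h2 : (Walk.cons hab (Walk.cons hbc Walk.nil) : G.Walk a c).IsPath := by
    simp [hab.ne, hbc.ne, hac.ne]
  have h3 := path_uniq hg h1 h2 (by simp; omega)
  have h4 := congrArg Walk.length h3
  simp at h4

/-- Two short paths with the same ends have the same second vertex. -/
theorem snd_eq {G : SimpleGraph V} {L : ℕ} (hL : 6 ≤ L) (hg : (L : ℕ∞) < G.egirth) {u v a b : V}
    {p q : G.Walk u v} (hp : p.IsPath) (hq : q.IsPath) (h1 : p.length ≤ 3) (h2 : q.length ≤ 3)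
    (ha : p.snd = a) (hb : q.snd = b) : a = b := by
  have h := path_uniq hg hp hq (by omega)
  rw [← ha, ← hb, h]

section deg

variable {G : SimpleGraph V} {U : Set V} {hi : V → Prop} {π : V → V} {L : ℕ}

/-- The path from `v` through its neighbour `a`. -/
theorem exists_path (hL : 6 ≤ L) (hg : (L : ℕ∞) < G.egirth)
    (h2 : ∀ v ∈ U, ∀ w, ∃ x ∈ U, G.Adj v x ∧ x ≠ w)
    (hπ : ∀ v ∈ U, hi (π v) ∧ (hi v → π v = v) ∧ (¬ hi v → G.Adj v (π v)))
    {v a : V} (hv : v ∈ U) (hhi : hi v) (ha : a ∈ U) (hva : G.Adj v a) :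
    ∃ t, t ≠ v ∧ (∃ x ∈ U, ∃ y ∈ U, G.Adj x y ∧ π x = v ∧ π y = t) ∧
      ∃ p : G.Walk v t, p.IsPath ∧ p.length ≤ 3 ∧ p.snd = a := by
  have hv' := (hπ v hv).2.1 hhi
  by_cases h : π a = v
  · have hlo : ¬ hi a := fun h1 => hva.ne ((hπ a ha).2.1 h1 ▸ h.symm)
    obtain ⟨b, hb, hab, hbv⟩ := h2 a ha v
    have hbπ : π b ≠ v := by
      intro h1
      by_cases h3 : hi b
      · exact hbv (((hπ b hb).2.1 h3).symm.trans h1)
      · have h4 := (hπ b hb).2.2 h3
        rw [h1] at h4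
        exact no_triangle (by omega) hg hva hab h4.symm
    refine ⟨π b, hbπ, ⟨a, ha, b, hb, hab, h, rfl⟩, ?_⟩
    by_cases h3 : hi b
    · rw [(hπ b hb).2.1 h3]
      refine ⟨Walk.cons hva (Walk.cons hab Walk.nil), ?_, ?_, ?_⟩
      · simp [hva.ne, hab.ne, hbv.symm]
      · simp
      · simp
    · have h4 := (hπ b hb).2.2 h3
      have h5 : a ≠ π b := fun h6 => hlo (h6 ▸ (hπ b hb).1)
      refine ⟨Walk.cons hva (Walk.cons hab (Walk.cons h4 Walk.nil)), ?_, ?_, ?_⟩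
      · simp [hva.ne, hab.ne, hbv.symm, h4.ne, h5, hbπ.symm]
      · simp
      · simp
  · refine ⟨π a, h, ⟨v, hv, a, ha, hva, hv', rfl⟩, ?_⟩
    by_cases h3 : hi a
    · rw [(hπ a ha).2.1 h3]
      refine ⟨Walk.cons hva Walk.nil, ?_, ?_, ?_⟩
      · simp [hva.ne]
      · simp
      · simp
    · have h4 := (hπ a ha).2.2 h3
      refine ⟨Walk.cons hva (Walk.cons h4 Walk.nil), ?_, ?_, ?_⟩
      · simp [hva.ne, h4.ne, Ne.symm h]
      · simp
      · simp

end deg

section girth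

variable {G : SimpleGraph V} {U : Set V} {hi : V → Prop} {π : V → V}

/-- The lifted edges -/
def Lf (E : Set (Sym2 V)) (L : Sym2 V → V × V) (a b : V) : Prop :=
  ∃ e ∈ E, L e = (a, b) ∨ L e = (b, a)

theorem Lf_symm {E : Set (Sym2 V)} {L : Sym2 V → V × V} {a b : V} (h : Lf E L a b) :
    Lf E L b a := by
  obtain ⟨e, he, h⟩ := h
  exact ⟨e, he, h.symm⟩

/-- The added edges -/
def Kf (π : V → V) (hi : V → Prop) (E : Set (Sym2 V)) (L : Sym2 V → V × V) (a x : V) : Prop :=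
  x = π a ∧ ¬ hi a ∧ (∃ b, Lf E L a b) ∧ ∃ a', a' ≠ a ∧ π a' = π a ∧ ∃ b', Lf E L a' b'

/-- A finite set of edges `E` of the quotient in which every vertex has a second neighbour has
more than `M` edges if the graph has girth greater than `3 M`. -/
theorem count [Finite V] {M : ℕ} (hg : ((3 * M : ℕ) : ℕ∞) < G.egirth)
    (hπ : ∀ v ∈ U, hi (π v) ∧ π (π v) = π v ∧ (hi v → π v = v) ∧ (¬ hi v → G.Adj v (π v)))
    (E : Set (Sym2 V)) (hne : E.Nonempty)
    (hE : ∀ x y, s(x, y) ∈ E → x ≠ y ∧ ∃ a ∈ U, ∃ b ∈ U, G.Adj a b ∧ π a = x ∧ π b = y)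
    (hE2 : ∀ x y, s(x, y) ∈ E → ∃ z, z ≠ y ∧ s(x, z) ∈ E) : M < E.ncard := by
  classical
  have hlift : ∀ e ∈ E, ∃ p : V × V, p.1 ∈ U ∧ p.2 ∈ U ∧ G.Adj p.1 p.2 ∧ s(π p.1, π p.2) = e := by
    intro e
    refine Sym2.ind (fun x y h => ?_) e
    obtain ⟨-, a, ha, b, hb, hab, h1, h2⟩ := hE x y h
    exact ⟨(a, b), ha, hb, hab, by rw [h1, h2]⟩
  have : Nonempty V := by
    obtain ⟨e, he⟩ := hne
    obtain ⟨p, -⟩ := hlift e he
    exact ⟨p.1⟩
  choose! L hL using hlift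
  have hLf : ∀ a b, Lf E L a b → a ∈ U ∧ b ∈ U ∧ G.Adj a b ∧ s(π a, π b) ∈ E ∧ π a ≠ π b := by
    rintro a b ⟨e, he, h | h⟩
    · have h1 := hL e he
      rw [h] at h1
      have h2 : s(π a, π b) ∈ E := by rw [h1.2.2.2]; exact he
      exact ⟨h1.1, h1.2.1, h1.2.2.1, h2, (hE _ _ h2).1⟩
    · have h1 := hL e he
      rw [h] at h1
      have h2 : s(π b, π a) ∈ E := by rw [h1.2.2.2]; exact he
      exact ⟨h1.2.1, h1.1, h1.2.2.1.symm, by rw [Sym2.eq_swap]; exact h2, (hE _ _ h2).1.symm⟩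
  -- every edge of `E` at `x` has a lift with end over `x`
  have hlift2 : ∀ x y, s(x, y) ∈ E → ∃ a b, Lf E L a b ∧ π a = x ∧ π b = y := by
    intro x y h
    have h1 := hL _ h
    obtain ⟨-, -, -, h4⟩ := h1
    rw [Sym2.eq_iff] at h4
    rcases h4 with ⟨h5, h6⟩ | ⟨h5, h6⟩
    · exact ⟨_, _, ⟨_, h, Or.inl rfl⟩, h5, h6⟩
    · exact ⟨_, _, ⟨_, h, Or.inr rfl⟩, h6, h5⟩
  let B : SimpleGraph V :=
    { Adj := fun u v => Lf E L u v ∨ Kf π hi E L u v ∨ Kf π hi E L v u
      symm := ⟨by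
        rintro u v (h | h | h)
        · exact Or.inl (Lf_symm h)
        · exact Or.inr (Or.inr h)
        · exact Or.inr (Or.inl h)⟩
      loopless := ⟨by
        have hK : ∀ u, ¬ Kf π hi E L u u := by
          rintro u ⟨h1, h2, ⟨b, hb⟩, -⟩
          exact h2 (h1 ▸ (hπ u (hLf _ _ hb).1).1)
        rintro u (h | h | h)
        · exact (hLf _ _ h).2.2.1.ne rfl
        · exact hK u h
        · exact hK u h⟩ }
  have hKG : ∀ a x, Kf π hi E L a x → G.Adj a x := by
    rintro a x ⟨h1, h2, ⟨b, hb⟩, -⟩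
    rw [h1]
    exact (hπ a (hLf _ _ hb).1).2.2.2 h2
  have hBG : B ≤ G := by
    rintro u v (h | h | h)
    · exact (hLf _ _ h).2.2.1
    · exact hKG _ _ h
    · exact (hKG _ _ h).symm
  have hBne : ∃ u v, B.Adj u v := by
    obtain ⟨e, he⟩ := hne
    exact ⟨(L e).1, (L e).2, Or.inl ⟨e, he, Or.inl rfl⟩⟩
  have hB2 : ∀ u v, B.Adj u v → ∃ w, w ≠ v ∧ B.Adj u w := by
    rintro u v (h | h | h)
    · obtain ⟨hu, hv, -, hE1, hne1⟩ := hLf _ _ h
      obtain ⟨z, hz, hz1⟩ := hE2 _ _ hE1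
      obtain ⟨a', b', h1, h2, h3⟩ := hlift2 _ _ hz1
      by_cases ha : a' = u
      · subst ha
        refine ⟨b', ?_, Or.inl h1⟩
        rintro rfl
        exact hz h3.symm
      · by_cases hu' : hi u
        · have h5 : π u = u := (hπ u hu).2.2.1 hu'
          have h6 : ¬ hi a' := by
            intro h7
            have h8 := (hπ a' (hLf _ _ h1).1).2.2.1 h7
            exact ha (by rw [← h8, h2, h5])
          refine ⟨a', ?_, Or.inr (Or.inr ⟨?_, h6, ⟨b', h1⟩, u, Ne.symm ha, h2.symm, v, h⟩)⟩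
          · rintro rfl
            exact hne1 h2.symm
          · rw [h2, h5]
        · refine ⟨π u, ?_, Or.inr (Or.inl ⟨rfl, hu', ⟨v, h⟩, a', ha, h2, b', h1⟩)⟩
          intro h5
          apply hne1
          rw [← h5]
          exact (hπ u hu).2.1.symm
    · obtain ⟨h1, h2, ⟨b, hb⟩, -⟩ := h
      refine ⟨b, ?_, Or.inl hb⟩
      rintro rfl
      obtain ⟨hu, hv, -, hE1, hne1⟩ := hLf _ _ hb
      apply hne1
      rw [h1]
      exact (hπ u hu).2.1.symm
    · obtain ⟨h1, h2, ⟨b, hb⟩, a', ha', h3, b', hb'⟩ := h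
      by_cases h5 : hi a'
      · have h6 := (hπ a' (hLf _ _ hb').1).2.2.1 h5
        have h7 : a' = u := by rw [h1, ← h3, h6]
        refine ⟨b', ?_, Or.inl (h7 ▸ hb')⟩
        rintro rfl
        exact (hLf _ _ hb').2.2.2.2 h3
      · refine ⟨a', ha', Or.inr (Or.inr ⟨?_, h5, ⟨b', hb'⟩, v, Ne.symm ha', h3.symm, b, hb⟩)⟩
        rw [h3, h1]
  have h1 := le_card_edges (L := 3 * M + 1) (by
    have := Order.add_one_le_of_lt hg
    exact_mod_cast this) hBG hBne hB2
  -- the number of edges of `B`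
  have h3 : B.edgeSet ⊆ ((fun e => s((L e).1, (L e).2)) '' E ∪
      (fun e => s((L e).1, π (L e).1)) '' E) ∪ (fun e => s((L e).2, π (L e).2)) '' E := by
    have hK : ∀ a x, Kf π hi E L a x → s(a, x) ∈ ((fun e => s((L e).1, (L e).2)) '' E ∪
      (fun e => s((L e).1, π (L e).1)) '' E) ∪ (fun e => s((L e).2, π (L e).2)) '' E := by
      rintro a x ⟨h1, -, ⟨b, e, he, h | h⟩, -⟩
      · refine Or.inl (Or.inr ⟨e, he, ?_⟩)
        simp only [h, h1]
      · refine Or.inr ⟨e, he, ?_⟩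
        simp only [h, h1]
    intro e
    refine Sym2.ind (fun u v h => ?_) e
    rw [mem_edgeSet] at h
    rcases h with ⟨e, he, h | h⟩ | h | h
    · refine Or.inl (Or.inl ⟨e, he, ?_⟩)
      simp only [h]
    · refine Or.inl (Or.inl ⟨e, he, ?_⟩)
      simp only [h]
      exact Sym2.eq_swap
    · exact hK _ _ h
    · rw [Sym2.eq_swap]
      exact hK _ _ h
  have h4 := (Set.ncard_le_ncard h3 (Set.toFinite _)).trans (Set.ncard_union_le _ _)
  have h5 := Set.ncard_union_le ((fun e => s((L e).1, (L e).2)) '' E)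
      ((fun e => s((L e).1, π (L e).1)) '' E)
  have h6 := Set.ncard_image_le (f := fun e => s((L e).1, (L e).2)) (Set.toFinite E)
  have h7 := Set.ncard_image_le (f := fun e => s((L e).1, π (L e).1)) (Set.toFinite E)
  have h8 := Set.ncard_image_le (f := fun e => s((L e).2, π (L e).2)) (Set.toFinite E)
  omega

end girth

theorem t_QUO : S_QUO := by
  intro V _ G m k U hm hg hU
  classical
  let d : V → ℕ := fun v => {w | G.Adj v w ∧ w ∈ U}.ncard
  have hx : ∀ v ∈ U, ∃ x, x ∈ U ∧ k < d x ∧ (k < d v → x = v) ∧ (¬ k < d v → G.Adj v x) := by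
    intro v hv
    by_cases h : k < d v
    · exact ⟨v, hv, h, fun _ => rfl, fun h' => absurd h h'⟩
    · obtain ⟨x, hx, hvx, hdx⟩ := (hU v hv).2 (not_lt.1 h)
      exact ⟨x, hx, (Nat.lt_succ_self k).trans hdx, fun h' => absurd h' h, fun _ => hvx⟩
  choose! π hπU hπ1 hπ2 hπ3 using hx
  let Q : SimpleGraph {v : V // v ∈ U ∧ k < {w | G.Adj v w ∧ w ∈ U}.ncard} :=
    { Adj := fun x y => x ≠ y ∧ ∃ a ∈ U, ∃ b ∈ U, G.Adj a b ∧ π a = x.1 ∧ π b = y.1
      symm := ⟨by
        rintro x y ⟨h, a, ha, b, hb, hab, h1, h2⟩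
        exact ⟨h.symm, b, hb, a, ha, hab.symm, h2, h1⟩⟩
      loopless := ⟨fun x h => h.1 rfl⟩ }
  refine ⟨Q, ?_, ?_⟩
  · -- girth
    have key : ((2 * m + 1 : ℕ) : ℕ∞) ≤ Q.egirth := by
      rw [le_egirth]
      intro v c hc
      have hcount := count (G := G) (U := U) (hi := fun v => k < d v) (π := π) (M := 2 * m)
        (by rw [← mul_assoc]; exact hg)
        (fun v hv => ⟨hπ1 v hv, hπ2 _ (hπU v hv) (hπ1 v hv), hπ2 v hv, hπ3 v hv⟩)
        (Sym2.map Subtype.val '' {e | e ∈ c.edges}) ?_ ?_ ?_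
      · have h1 : (Sym2.map Subtype.val '' {e | e ∈ c.edges}).ncard ≤ {e | e ∈ c.edges}.ncard :=
          Set.ncard_image_le (Set.toFinite _)
        have h2 : {e | e ∈ c.edges}.ncard ≤ c.length := by
          have h3 : {e | e ∈ c.edges} = (c.edges.toFinset : Set _) := by
            ext e; simp
          rw [h3, Set.ncard_coe_finset, ← c.length_edges]
          exact List.toFinset_card_le _
        have h3 : 2 * m + 1 ≤ c.length := by omega
        exact_mod_cast h3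
      · have h1 : c.edges ≠ [] := by
          intro h
          have h2 := congrArg List.length h
          rw [Walk.length_edges, List.length_nil] at h2
          have := hc.three_le_length
          omega
        obtain ⟨e, he⟩ := List.exists_mem_of_ne_nil _ h1
        exact ⟨_, e, he, rfl⟩
      · rintro x y ⟨e, he, h⟩
        revert he h
        refine Sym2.ind (fun x' y' he h => ?_) e
        have h1 : Q.Adj x' y' := c.adj_of_mem_edges he
        simp only [Sym2.map_mk, Sym2.eq_iff] at h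
        rcases h with ⟨rfl, rfl⟩ | ⟨rfl, rfl⟩
        · exact ⟨fun h => h1.1 (Subtype.ext h), h1.2⟩
        · exact ⟨fun h => h1.1 (Subtype.ext h.symm), h1.symm.2⟩
      · have h2 : ∀ x' y', s(x', y') ∈ c.edges → ∃ z, z ≠ y' ∧ s(x', z) ∈ c.edges := by
          intro x' y' h
          have h3 : x' ∈ c.support := c.fst_mem_support_of_mem_edges h
          have h4 := hc.ncard_neighborSet_toSubgraph_eq_two h3
          obtain ⟨z, hz, hzy⟩ := Set.exists_ne_of_one_lt_ncard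
            (show 1 < (c.toSubgraph.neighborSet x').ncard by omega) y'
          refine ⟨z, hzy, ?_⟩
          rw [Subgraph.mem_neighborSet, Walk.adj_toSubgraph_iff_mem_edges] at hz
          exact hz
        rintro x y ⟨e, he, h⟩
        revert he h
        refine Sym2.ind (fun x' y' he h => ?_) e
        simp only [Sym2.map_mk, Sym2.eq_iff] at h
        rcases h with ⟨rfl, rfl⟩ | ⟨rfl, rfl⟩
        · obtain ⟨z, hz, hz1⟩ := h2 _ _ he
          exact ⟨z.1, fun h => hz (Subtype.ext h), _, hz1, rfl⟩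
        · obtain ⟨z, hz, hz1⟩ := h2 y' x' (by rw [Sym2.eq_swap]; exact he)
          exact ⟨z.1, fun h => hz (Subtype.ext h), _, hz1, rfl⟩
    exact lt_of_lt_of_le (by exact_mod_cast Nat.lt_succ_self _) key
  · -- degrees
    rintro ⟨v, hv, hvk⟩
    have hpath : ∀ a, G.Adj v a ∧ a ∈ U → ∃ t, t ≠ v ∧
        (∃ x ∈ U, ∃ y ∈ U, G.Adj x y ∧ π x = v ∧ π y = t) ∧
        ∃ p : G.Walk v t, p.IsPath ∧ p.length ≤ 3 ∧ p.snd = a := by
      rintro a ⟨h1, h2⟩
      refine exists_path (L := 6 * m) (hi := fun v => k < d v) (by omega) hg ?_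
        (fun v hv => ⟨hπ1 v hv, hπ2 v hv, hπ3 v hv⟩) hv hvk h2 h1
      intro u hu w
      obtain ⟨x, hx, hxw⟩ := Set.exists_ne_of_one_lt_ncard
        (show 1 < {w | G.Adj u w ∧ w ∈ U}.ncard from (hU u hu).1) w
      exact ⟨x, hx.2, hx.1, hxw⟩
    choose! t ht1 ht2 ht3 using hpath
    have htH : ∀ a, G.Adj v a ∧ a ∈ U → t a ∈ U ∧ k < {w | G.Adj (t a) w ∧ w ∈ U}.ncard := by
      intro a ha
      obtain ⟨x, hx, y, hy, hxy, h1, h2⟩ := ht2 a ha
      rw [← h2]
      exact ⟨hπU y hy, hπ1 y hy⟩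
    have h1 : {w | G.Adj v w ∧ w ∈ U}.ncard ≤ (Subtype.val '' (Q.neighborSet ⟨v, hv, hvk⟩)).ncard := by
      refine Set.ncard_le_ncard_of_injOn t ?_ ?_ (Set.toFinite _)
      · intro a ha
        exact ⟨⟨t a, htH a ha⟩, ⟨fun h => ht1 a ha (congrArg Subtype.val h).symm, ht2 a ha⟩, rfl⟩
      · intro a ha b hb hab
        obtain ⟨p, hp1, hp2, hp3⟩ := ht3 a ha
        have hb3 := ht3 b hb
        rw [← (show t a = t b from hab)] at hb3
        obtain ⟨q, hq1, hq2, hq3⟩ := hb3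
        exact snd_eq (L := 6 * m) (by omega) hg hp1 hq1 hp2 hq2 hp3 hq3
    have h2 : (Subtype.val '' (Q.neighborSet ⟨v, hv, hvk⟩)).ncard ≤
        (Q.neighborSet ⟨v, hv, hvk⟩).ncard := Set.ncard_image_le (Set.toFinite _)
    omega

end Pool.Agent.Y395.SG
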